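import Pool.Agent.K7.H23.PT.Stm
import Pool.Agent.Erdos456.Mertens

/-!
Job TY of project PT (helper23): Rankin's bound.
-/

set_option autoImplicit false

namespace Pool.Agent.K7.H5.TY

open Finset

theorem prod_expand (P : Finset ℕ) (hP : ∀ p ∈ P, p.Prime) (w : ℕ → ℝ) (d : ℕ) :
    ∏ p ∈ P.filter (· ∣ d), (1 + w p) =
      ∑ S ∈ P.powerset, if (∏ p ∈ S, p) ∣ d then ∏ p ∈ S, w p else 0 := by
  rw [Finset.prod_one_add, ← Finset.sum_filter]
  apply Finset.sum_congr _ (fun _ _ => rfl)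
  ext S
  simp only [Finset.mem_powerset, Finset.mem_filter]
  constructor
  · intro h
    refine ⟨h.trans (Finset.filter_subset _ _), ?_⟩
    apply Finset.prod_primes_dvd
    · intro p hp
      exact (hP p (Finset.mem_filter.1 (h hp)).1).prime
    · intro p hp
      exact (Finset.mem_filter.1 (h hp)).2
  · rintro ⟨h1, h2⟩ p hp
    exact Finset.mem_filter.2 ⟨h1 hp, (Finset.dvd_prod_of_mem _ hp).trans h2⟩

theorem count_dvd (N m : ℕ) :
    (((Finset.Ioc 0 N).filter (m ∣ ·)).card : ℝ) ≤ N / m := by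
  rw [Nat.Ioc_filter_dvd_card_eq_div N m]
  exact Nat.cast_div_le

theorem rankin (P : Finset ℕ) (hP : ∀ p ∈ P, p.Prime) (w : ℕ → ℝ) (hw : ∀ p ∈ P, 0 ≤ w p)
    (N : ℕ) :
    ∑ d ∈ Finset.Ioc 0 N, ∏ p ∈ P.filter (· ∣ d), (1 + w p) ≤
      N * Real.exp (∑ p ∈ P, w p / p) := by
  calc ∑ d ∈ Finset.Ioc 0 N, ∏ p ∈ P.filter (· ∣ d), (1 + w p)
      = ∑ d ∈ Finset.Ioc 0 N, ∑ S ∈ P.powerset,
          if (∏ p ∈ S, p) ∣ d then ∏ p ∈ S, w p else 0 :=
        Finset.sum_congr rfl fun d _ => prod_expand P hP w d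
    _ = ∑ S ∈ P.powerset, ∑ d ∈ Finset.Ioc 0 N,
          if (∏ p ∈ S, p) ∣ d then ∏ p ∈ S, w p else 0 := Finset.sum_comm
    _ = ∑ S ∈ P.powerset, (((Finset.Ioc 0 N).filter ((∏ p ∈ S, p) ∣ ·)).card : ℝ) *
          ∏ p ∈ S, w p := by
        apply Finset.sum_congr rfl
        intro S _
        rw [← Finset.sum_filter, Finset.sum_const, nsmul_eq_mul]
    _ ≤ ∑ S ∈ P.powerset, (N / ((∏ p ∈ S, p : ℕ) : ℝ)) * ∏ p ∈ S, w p := by
        apply Finset.sum_le_sum
        intro S hS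
        apply mul_le_mul_of_nonneg_right (count_dvd _ _)
        exact Finset.prod_nonneg fun p hp => hw p (Finset.mem_powerset.1 hS hp)
    _ = N * ∏ p ∈ P, (1 + w p / p) := by
        rw [Finset.prod_one_add, Finset.mul_sum]
        apply Finset.sum_congr rfl
        intro S _
        rw [Finset.prod_div_distrib]
        push_cast
        ring
    _ ≤ N * Real.exp (∑ p ∈ P, w p / p) := by
        apply mul_le_mul_of_nonneg_left _ (Nat.cast_nonneg _)
        rw [Real.exp_sum]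
        apply Finset.prod_le_prod
        · intro p hp
          have := hw p hp
          positivity
        · intro p _
          rw [add_comm]
          exact Real.add_one_le_exp _

theorem rankin_count (P : Finset ℕ) (hP : ∀ p ∈ P, p.Prime) (w : ℕ → ℝ)
    (hw : ∀ p ∈ P, 0 ≤ w p) (N : ℕ) (T : ℝ) (hT : 0 < T) (E : ℝ)
    (hE : ∑ p ∈ P, w p / p ≤ E) (B : ℕ → Prop) [DecidablePred B]
    (hB : ∀ d ∈ Finset.Ioc 0 N, B d → T ≤ ∏ p ∈ P.filter (· ∣ d), (1 + w p)) :
    (((Finset.Ioc 0 N).filter B).card : ℝ) ≤ N * Real.exp E / T := by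
  rw [le_div_iff₀ hT]
  calc (((Finset.Ioc 0 N).filter B).card : ℝ) * T
      = ∑ d ∈ (Finset.Ioc 0 N).filter B, T := by
        rw [Finset.sum_const, nsmul_eq_mul]
    _ ≤ ∑ d ∈ (Finset.Ioc 0 N).filter B, ∏ p ∈ P.filter (· ∣ d), (1 + w p) := by
        apply Finset.sum_le_sum
        intro d hd
        rw [Finset.mem_filter] at hd
        exact hB d hd.1 hd.2
    _ ≤ ∑ d ∈ Finset.Ioc 0 N, ∏ p ∈ P.filter (· ∣ d), (1 + w p) := by
        apply Finset.sum_le_sum_of_subset_of_nonneg (Finset.filter_subset _ _)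
        intro d _ _
        apply Finset.prod_nonneg
        intro p hp
        have := hw p (Finset.mem_filter.1 hp).1
        positivity
    _ ≤ N * Real.exp (∑ p ∈ P, w p / p) := rankin P hP w hw N
    _ ≤ N * Real.exp E := by
        apply mul_le_mul_of_nonneg_left _ (Nat.cast_nonneg _)
        exact Real.exp_le_exp.2 hE

/-- Turán-Kubilius for finitely many primes `P`. -/
theorem tk (P : Finset ℕ) (hP : ∀ p ∈ P, p.Prime) (N : ℕ)
    (S : ℝ) (hS : S = ∑ p ∈ P, (1 : ℝ) / p) :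
    ∑ d ∈ Finset.Ioc 0 N, (((P.filter (· ∣ d)).card : ℝ) - S) ^ 2 ≤
      N * S + 2 * S * P.card := by
  have hS0 : 0 ≤ S := by
    rw [hS]
    exact Finset.sum_nonneg fun p _ => by positivity
  -- first moment
  have h1 : (N : ℝ) * S - P.card ≤ ∑ d ∈ Finset.Ioc 0 N, ((P.filter (· ∣ d)).card : ℝ) := by
    have : ∑ d ∈ Finset.Ioc 0 N, ((P.filter (· ∣ d)).card : ℝ) =
        ∑ p ∈ P, (((Finset.Ioc 0 N).filter (p ∣ ·)).card : ℝ) := by
      simp_rw [Finset.card_filter]
      push_cast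
      rw [Finset.sum_comm]
    rw [this, hS, Finset.mul_sum, Finset.card_eq_sum_ones]
    push_cast
    rw [← Finset.sum_sub_distrib]
    apply Finset.sum_le_sum
    intro p hp
    rw [Nat.Ioc_filter_dvd_card_eq_div N p]
    have h2 := Nat.lt_floor_add_one ((N : ℝ) / p)
    rw [Nat.floor_div_natCast, Nat.floor_natCast] at h2
    have h3 : (N : ℝ) * (1 / p) = N / p := by ring
    rw [h3]
    linarith
  -- second moment
  have h2 : ∑ d ∈ Finset.Ioc 0 N, ((P.filter (· ∣ d)).card : ℝ) ^ 2 ≤ N * S ^ 2 + N * S := by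
    have e1 : ∀ d : ℕ, ((P.filter (· ∣ d)).card : ℝ) ^ 2 =
        ∑ p ∈ P, ∑ q ∈ P, if (p ∣ d ∧ q ∣ d) then (1 : ℝ) else 0 := by
      intro d
      rw [Finset.card_filter]
      push_cast
      rw [sq, Finset.sum_mul_sum]
      apply Finset.sum_congr rfl
      intro p _
      apply Finset.sum_congr rfl
      intro q _
      by_cases h1 : p ∣ d <;> by_cases h2 : q ∣ d <;> simp [h1, h2]
    calc ∑ d ∈ Finset.Ioc 0 N, ((P.filter (· ∣ d)).card : ℝ) ^ 2
        = ∑ p ∈ P, ∑ q ∈ P, ∑ d ∈ Finset.Ioc 0 N, (if (p ∣ d ∧ q ∣ d) then (1 : ℝ) else 0) := by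
          rw [Finset.sum_congr rfl fun d _ => e1 d, Finset.sum_comm]
          apply Finset.sum_congr rfl
          intro p _
          rw [Finset.sum_comm]
      _ ≤ ∑ p ∈ P, ∑ q ∈ P, ((N : ℝ) * ((1 / p) * (1 / q)) + if p = q then (N : ℝ) * (1 / p) else 0) := by
          apply Finset.sum_le_sum
          intro p hp
          apply Finset.sum_le_sum
          intro q hq
          rw [← Finset.sum_filter, Finset.sum_const, nsmul_eq_mul, mul_one]
          by_cases hpq : p = q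
          · subst hpq
            rw [if_pos rfl]
            have : (Finset.Ioc 0 N).filter (fun d => p ∣ d ∧ p ∣ d) =
                (Finset.Ioc 0 N).filter (p ∣ ·) := by
              ext d; simp
            rw [this]
            have h3 := count_dvd N p
            have h4 : (0 : ℝ) ≤ (N : ℝ) * ((1 / p) * (1 / p)) := by positivity
            have h5 : (N : ℝ) * (1 / p) = N / p := by ring
            linarith
          · rw [if_neg hpq, add_zero]
            have h3 := count_dvd N (p * q)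
            have h4 : (Finset.Ioc 0 N).filter (fun d => p ∣ d ∧ q ∣ d) =
                (Finset.Ioc 0 N).filter (p * q ∣ ·) := by
              ext d
              simp only [Finset.mem_filter]
              have hc : Nat.Coprime p q := (Nat.coprime_primes (hP p hp) (hP q hq)).2 hpq
              constructor
              · rintro ⟨a, b, c⟩
                exact ⟨a, hc.mul_dvd_of_dvd_of_dvd b c⟩
              · rintro ⟨a, b⟩
                exact ⟨a, (Dvd.intro _ rfl).trans b, (Dvd.intro_left _ rfl).trans b⟩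
            rw [h4]
            refine h3.trans (le_of_eq ?_)
            push_cast
            have hp0 : (p : ℝ) ≠ 0 := by exact_mod_cast (hP p hp).ne_zero
            have hq0 : (q : ℝ) ≠ 0 := by exact_mod_cast (hP q hq).ne_zero
            field_simp
      _ = N * S ^ 2 + N * S := by
          have e2 : ∀ p ∈ P, ∑ q ∈ P, ((N : ℝ) * ((1 / p) * (1 / q)) +
              if p = q then (N : ℝ) * (1 / p) else 0) = (N : ℝ) * ((1 / p) * S) + N * (1 / p) := by
            intro p hp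
            rw [Finset.sum_add_distrib, ← Finset.mul_sum, ← Finset.mul_sum, ← hS,
              Finset.sum_ite_eq]
            rw [if_pos hp]
          rw [Finset.sum_congr rfl e2, Finset.sum_add_distrib, ← Finset.mul_sum, ← Finset.mul_sum,
            ← Finset.sum_mul, ← hS]
          ring
  have e3 : ∑ d ∈ Finset.Ioc 0 N, (((P.filter (· ∣ d)).card : ℝ) - S) ^ 2 =
      ∑ d ∈ Finset.Ioc 0 N, ((P.filter (· ∣ d)).card : ℝ) ^ 2 -
        2 * S * ∑ d ∈ Finset.Ioc 0 N, ((P.filter (· ∣ d)).card : ℝ) + N * S ^ 2 := by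
    have : (N : ℝ) * S ^ 2 = ∑ d ∈ Finset.Ioc 0 N, S ^ 2 := by
      rw [Finset.sum_const, nsmul_eq_mul, Nat.card_Ioc, Nat.sub_zero]
    rw [this, Finset.mul_sum, ← Finset.sum_sub_distrib, ← Finset.sum_add_distrib]
    apply Finset.sum_congr rfl
    intro d _
    ring
  rw [e3]
  nlinarith [mul_le_mul_of_nonneg_left h1 hS0]

theorem tk_count (P : Finset ℕ) (hP : ∀ p ∈ P, p.Prime) (N : ℕ) (hN : ∀ p ∈ P, p ≤ N)
    (S : ℝ) (hS : S ≤ ∑ p ∈ P, (1 : ℝ) / p) (hS0 : 0 < S) :
    (((Finset.Ioc 0 N).filter (fun d => ∀ p ∈ P, ¬ p ∣ d)).card : ℝ) ≤ 3 * N / S := by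
  set S' := ∑ p ∈ P, (1 : ℝ) / p with hS'
  have hS'0 : 0 < S' := hS0.trans_le hS
  have h1 := tk P hP N S' hS'
  have hcard : (P.card : ℝ) ≤ N := by
    have : P ⊆ Finset.Ioc 0 N := by
      intro p hp
      rw [Finset.mem_Ioc]
      exact ⟨(hP p hp).pos, hN p hp⟩
    have := Finset.card_le_card this
    rw [Nat.card_Ioc] at this
    exact_mod_cast this
  have h2 : (((Finset.Ioc 0 N).filter (fun d => ∀ p ∈ P, ¬ p ∣ d)).card : ℝ) * S' ^ 2 ≤
      3 * N * S' := by
    calc (((Finset.Ioc 0 N).filter (fun d => ∀ p ∈ P, ¬ p ∣ d)).card : ℝ) * S' ^ 2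
        = ∑ d ∈ (Finset.Ioc 0 N).filter (fun d => ∀ p ∈ P, ¬ p ∣ d), S' ^ 2 := by
          rw [Finset.sum_const, nsmul_eq_mul]
      _ = ∑ d ∈ (Finset.Ioc 0 N).filter (fun d => ∀ p ∈ P, ¬ p ∣ d),
            (((P.filter (· ∣ d)).card : ℝ) - S') ^ 2 := by
          apply Finset.sum_congr rfl
          intro d hd
          rw [Finset.mem_filter] at hd
          have : P.filter (· ∣ d) = ∅ := by
            rw [Finset.filter_eq_empty_iff]
            exact fun p hp => hd.2 p hp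
          rw [this]
          simp
      _ ≤ ∑ d ∈ Finset.Ioc 0 N, (((P.filter (· ∣ d)).card : ℝ) - S') ^ 2 :=
          Finset.sum_le_sum_of_subset_of_nonneg (Finset.filter_subset _ _)
            fun _ _ _ => sq_nonneg _
      _ ≤ _ := h1
      _ ≤ 3 * N * S' := by
          nlinarith
  have h3 : (((Finset.Ioc 0 N).filter (fun d => ∀ p ∈ P, ¬ p ∣ d)).card : ℝ) ≤ 3 * N / S' := by
    rw [le_div_iff₀ hS'0]
    nlinarith
  refine h3.trans ?_
  exact div_le_div_of_nonneg_left (by positivity) hS0 hS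

/-- from naturals to integers -/
theorem ncard_int_le (N : ℕ) (Q : ℤ → Prop) (Q' : ℕ → Prop) [DecidablePred Q']
    (hQ : ∀ D : ℤ, Q D → Q' D.natAbs) :
    (Set.ncard {D : ℤ | D ≠ 0 ∧ |D| ≤ N ∧ Q D} : ℝ) ≤
      2 * ((Finset.Ioc 0 N).filter Q').card := by
  classical
  have h1 : {D : ℤ | D ≠ 0 ∧ |D| ≤ N ∧ Q D} ⊆
      ((((Finset.Ioc 0 N).filter Q').image (fun d : ℕ => (d : ℤ)) ∪
        ((Finset.Ioc 0 N).filter Q').image (fun d : ℕ => -(d : ℤ)) : Finset ℤ) : Set ℤ) := by
    rintro D ⟨h0, h1, h2⟩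
    have h3 : D.natAbs ∈ (Finset.Ioc 0 N).filter Q' := by
      rw [Finset.mem_filter, Finset.mem_Ioc]
      refine ⟨⟨Int.natAbs_pos.2 h0, ?_⟩, hQ D h2⟩
      rw [Int.abs_eq_natAbs] at h1
      exact_mod_cast h1
    rw [Finset.coe_union, Set.mem_union, Finset.mem_coe, Finset.mem_coe, Finset.mem_image,
      Finset.mem_image]
    rcases Int.natAbs_eq D with h | h
    · left; exact ⟨_, h3, h.symm⟩
    · right; exact ⟨_, h3, h.symm⟩
  have h2 := Set.ncard_le_ncard h1 (Finset.finite_toSet _)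
  rw [Set.ncard_coe_finset] at h2
  have h3 := h2.trans (Finset.card_union_le _ _)
  have h4 := (h3.trans (add_le_add Finset.card_image_le Finset.card_image_le))
  have h5 : (Set.ncard {D : ℤ | D ≠ 0 ∧ |D| ≤ N ∧ Q D} : ℝ) ≤
    ((((Finset.Ioc 0 N).filter Q').card + ((Finset.Ioc 0 N).filter Q').card : ℕ) : ℝ) := by
    exact_mod_cast h4
  push_cast at h5
  linarith

end Pool.Agent.K7.H5.TY
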