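import Pool.Agent.K7.H5.TY.A

/-!
Job TY of project PT (helper23): the exceptional sets at the scale `k`.
-/

set_option autoImplicit false

namespace Pool.Agent.K7.H5.TY

open Finset Pool.Agent.K7.H23.PT

/-- the ratio -/
noncomputable def rr : ℝ := Real.exp (-(Real.log 2 / 4000))

theorem rr_pow (k : ℕ) : rr ^ k = Real.exp (-(k * (Real.log 2 / 4000))) := by
  rw [rr, ← Real.exp_nat_mul]
  congr 1
  ring

theorem rr_pos : 0 < rr := Real.exp_pos _

theorem rr_lt_one : rr < 1 := by
  rw [rr, Real.exp_lt_one_iff]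
  have := Real.log_two_gt_d9
  linarith

theorem log_zk (k : ℕ) : Real.log (zk k) = 2 ^ (k - k / 200) * Real.log 2 := by
  rw [zk]
  push_cast
  rw [Real.log_pow]
  push_cast
  ring

theorem log_Xk (k : ℕ) : Real.log (Xk k) = 2 ^ k * Real.log 2 := by
  rw [Xk]
  push_cast
  rw [Real.log_pow]
  push_cast
  ring

theorem loglog_zk (k : ℕ) : Real.log (Real.log (zk k)) =
    ((k - k / 200 : ℕ) : ℝ) * Real.log 2 + Real.log (Real.log 2) := by
  have := Real.log_two_gt_d9
  rw [log_zk, Real.log_mul (by positivity) (by linarith), Real.log_pow]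

theorem loglog_Xk (k : ℕ) : Real.log (Real.log (Xk k)) =
    (k : ℝ) * Real.log 2 + Real.log (Real.log 2) := by
  have := Real.log_two_gt_d9
  rw [log_Xk, Real.log_mul (by positivity) (by linarith), Real.log_pow]

theorem loglog_two : Real.log (Real.log 2) ≤ 0 := by
  have h1 := Real.log_two_gt_d9
  have h2 := Real.log_two_lt_d9
  exact Real.log_nonpos (by linarith) (by linarith)

theorem two_le_zk (k : ℕ) : 2 ≤ zk k := by
  rw [zk]
  calc 2 = 2 ^ 1 := by norm_num
    _ ≤ 2 ^ 2 ^ (k - k / 200) := Nat.pow_le_pow_right (by norm_num) Nat.one_le_two_pow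

theorem sub_div_le (k : ℕ) : ((k - k / 200 : ℕ) : ℝ) ≤ 199 / 200 * k + 1 := by
  have h1 : 200 * (k - k / 200) ≤ 199 * k + 200 := by omega
  have h2 : (200 : ℝ) * ((k - k / 200 : ℕ) : ℝ) ≤ 199 * k + 200 := by exact_mod_cast h1
  linarith

theorem le_div_add (k : ℕ) : (k : ℝ) / 200 - 1 ≤ ((k / 200 : ℕ) : ℝ) := by
  have h1 : k ≤ 200 * (k / 200) + 200 := by omega
  have h2 : (k : ℝ) ≤ 200 * ((k / 200 : ℕ) : ℝ) + 200 := by exact_mod_cast h1
  linarith

theorem div_le_real (k : ℕ) : ((k / 200 : ℕ) : ℝ) ≤ (k : ℝ) / 200 := by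
  have h1 : 200 * (k / 200) ≤ k := by omega
  have h2 : (200 : ℝ) * ((k / 200 : ℕ) : ℝ) ≤ k := by exact_mod_cast h1
  linarith

open scoped Classical in
theorem ev1 (Δ : ℤ) (C : ℝ) (hC : ∀ z : ℕ, 2 ≤ z →
    (∑ p ∈ (Finset.range (z + 1)).filter (fun p => p.Prime ∧ IsSquare ((Δ : ℤ) : ZMod p)),
      (1 : ℝ) / p) ≤ Real.log (Real.log z) / 2 + C) (k N : ℕ) :
    (((Finset.Ioc 0 N).filter (fun d : ℕ => 38 * k < 100 * ws Δ (zk k) (d : ℤ))).card : ℝ) ≤
      Real.exp (C / 10 + 1) * N * rr ^ k := by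
  set P := (Finset.range (zk k + 1)).filter (fun p => p.Prime ∧ IsSquare ((Δ : ℤ) : ZMod p)) with hP
  have hPp : ∀ p ∈ P, p.Prime := fun p hp => (Finset.mem_filter.1 hp).2.1
  have hl2 := Real.log_two_gt_d9
  have hl2' := Real.log_two_lt_d9
  have h11 : 5 * Real.log 2 < 38 * Real.log (11 / 10) := by
    have h1 : Real.log ((2 : ℝ) ^ 5) < Real.log ((11 / 10 : ℝ) ^ 38) := by
      apply Real.log_lt_log (by norm_num)
      norm_num
    rw [Real.log_pow, Real.log_pow] at h1
    exact_mod_cast h1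
  have h := rankin_count P hPp (fun _ => 1 / 10) (fun _ _ => by norm_num) N
    (Real.exp (38 / 100 * k * Real.log (11 / 10))) (Real.exp_pos _)
    (1 / 10 * (((k - k / 200 : ℕ) : ℝ) * Real.log 2 / 2 + C))
    (by
      have h1 := hC (zk k) (two_le_zk k)
      rw [loglog_zk] at h1
      have h2 := loglog_two
      have h3 : ∑ p ∈ P, (1 / 10 : ℝ) / p = 1 / 10 * ∑ p ∈ P, (1 : ℝ) / p := by
        rw [Finset.mul_sum]
        apply Finset.sum_congr rfl
        intro p _
        ring
      rw [h3]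
      linarith)
    (fun d : ℕ => 38 * k < 100 * ws Δ (zk k) (d : ℤ))
    (by
      intro d hd hB
      have h1 : ws Δ (zk k) (d : ℤ) = (P.filter (· ∣ d)).card := by
        rw [ws, Int.natAbs_natCast]
        congr 1
        ext p
        rw [Finset.mem_filter, Finset.mem_filter, hP, Finset.mem_filter, Nat.mem_primeFactors,
          Finset.mem_range]
        have : d ≠ 0 := by
          rw [Finset.mem_Ioc] at hd
          omega
        constructor
        · rintro ⟨⟨a, b, _⟩, c, e⟩
          exact ⟨⟨by omega, a, e⟩, b⟩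
        · rintro ⟨⟨a, b, e⟩, c⟩
          exact ⟨⟨b, c, this⟩, by omega, e⟩
      rw [h1] at hB
      rw [Finset.prod_const]
      have h2 : ((1 : ℝ) + 1 / 10) ^ (P.filter (· ∣ d)).card =
          Real.exp ((P.filter (· ∣ d)).card * Real.log (11 / 10)) := by
        rw [Real.exp_nat_mul, Real.exp_log (by norm_num)]
        norm_num
      rw [h2]
      apply Real.exp_le_exp.2
      apply mul_le_mul_of_nonneg_right _ (by linarith)
      have : (38 : ℝ) * k ≤ 100 * (P.filter (· ∣ d)).card := by exact_mod_cast hB.le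
      linarith)
  refine h.trans ?_
  rw [mul_div_assoc, ← Real.exp_sub, rr_pow]
  have h5 : Real.exp (C / 10 + 1) * N * Real.exp (-(k * (Real.log 2 / 4000))) =
      N * Real.exp ((C / 10 + 1) + -(k * (Real.log 2 / 4000))) := by
    rw [Real.exp_add (C / 10 + 1)]; ring
  rw [h5]
  apply mul_le_mul_of_nonneg_left _ (Nat.cast_nonneg _)
  apply Real.exp_le_exp.2
  have h6 := sub_div_le k
  have hk0 : (0 : ℝ) ≤ k := Nat.cast_nonneg _
  have h7 : ((k - k / 200 : ℕ) : ℝ) * Real.log 2 ≤ (199 / 200 * k + 1) * Real.log 2 :=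
    mul_le_mul_of_nonneg_right h6 (by linarith)
  have h8 : k * (5 * Real.log 2) ≤ k * (38 * Real.log (11 / 10)) :=
    mul_le_mul_of_nonneg_left h11.le hk0
  nlinarith

theorem ev2 : ∃ C : ℝ, 0 < C ∧ ∀ k N : ℕ, 1 ≤ k →
    (((Finset.Ioc 0 N).filter (fun d : ℕ =>
      k < 100 * wm (zk k) (Xk (k + 1)) (d : ℤ))).card : ℝ) ≤ C * N * rr ^ k := by
  obtain ⟨C, hC⟩ := Pool.Agent.Erdos456.Mert.mertens_inv
  refine ⟨Real.exp (2 * C + 1), Real.exp_pos _, fun k N hk => ?_⟩
  set P := (Finset.Icc 1 (Xk (k + 1))).filter (fun p => p.Prime ∧ zk k < p) with hP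
  have hPp : ∀ p ∈ P, p.Prime := fun p hp => (Finset.mem_filter.1 hp).2.1
  have hl2 := Real.log_two_gt_d9
  have hl2' := Real.log_two_lt_d9
  have h3z : 3 ≤ zk k := by
    have : 1 ≤ k - k / 200 := by omega
    rw [zk]
    calc 3 ≤ 2 ^ 2 ^ 1 := by norm_num
      _ ≤ 2 ^ 2 ^ (k - k / 200) :=
        Nat.pow_le_pow_right (by norm_num) (Nat.pow_le_pow_right (by norm_num) this)
  have hzX : zk k ≤ Xk (k + 1) := by
    rw [zk, Xk]
    exact Nat.pow_le_pow_right (by norm_num) (Nat.pow_le_pow_right (by norm_num) (by omega))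
  have hsum : ∑ p ∈ P, (1 : ℝ) / p ≤ 2 * C + (1 + (k : ℝ) / 200) * Real.log 2 := by
    have h1 := hC (zk k) h3z
    have h2 := hC (Xk (k + 1)) (h3z.trans hzX)
    rw [abs_le] at h1 h2
    have h4 : (Finset.Icc 1 (Xk (k + 1))).filter Nat.Prime =
        (Finset.Icc 1 (zk k)).filter Nat.Prime ∪ P := by
      ext p
      rw [Finset.mem_union, Finset.mem_filter, Finset.mem_filter, hP, Finset.mem_filter,
        Finset.mem_Icc, Finset.mem_Icc]
      constructor
      · rintro ⟨⟨a, b⟩, c⟩
        by_cases h : zk k < p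
        · right; exact ⟨⟨a, b⟩, c, h⟩
        · left; exact ⟨⟨a, by omega⟩, c⟩
      · rintro (⟨⟨a, b⟩, c⟩ | ⟨⟨a, b⟩, c, e⟩)
        · exact ⟨⟨a, b.trans hzX⟩, c⟩
        · exact ⟨⟨a, b⟩, c⟩
    have h5 : Disjoint ((Finset.Icc 1 (zk k)).filter Nat.Prime) P := by
      rw [Finset.disjoint_left]
      intro p hp hp'
      rw [Finset.mem_filter, Finset.mem_Icc] at hp
      rw [hP, Finset.mem_filter] at hp'
      omega
    rw [h4, Finset.sum_union h5, loglog_Xk] at h2
    rw [loglog_zk] at h1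
    have h6 := div_le_real k
    have h7 : ((k - k / 200 : ℕ) : ℝ) = k - ((k / 200 : ℕ) : ℝ) := by
      rw [Nat.cast_sub (Nat.div_le_self _ _)]
    rw [h7] at h1
    push_cast at h2
    have h8 : ((k / 200 : ℕ) : ℝ) * Real.log 2 ≤ (k : ℝ) / 200 * Real.log 2 :=
      mul_le_mul_of_nonneg_right h6 (by linarith)
    linarith [h1.1, h2.2]
  have h := rankin_count P hPp (fun _ => 1) (fun _ _ => by norm_num) N
    (Real.exp (k / 100 * Real.log 2)) (Real.exp_pos _)
    (2 * C + (1 + (k : ℝ) / 200) * Real.log 2) hsum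
    (fun d : ℕ => k < 100 * wm (zk k) (Xk (k + 1)) (d : ℤ))
    (by
      intro d hd hB
      have h1 : wm (zk k) (Xk (k + 1)) (d : ℤ) = (P.filter (· ∣ d)).card := by
        rw [wm, Int.natAbs_natCast]
        congr 1
        ext p
        rw [Finset.mem_filter, Finset.mem_filter, hP, Finset.mem_filter, Nat.mem_primeFactors,
          Finset.mem_Icc]
        have : d ≠ 0 := by
          rw [Finset.mem_Ioc] at hd
          omega
        constructor
        · rintro ⟨⟨a, b, _⟩, c, e⟩
          exact ⟨⟨⟨a.one_lt.le, e⟩, a, c⟩, b⟩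
        · rintro ⟨⟨⟨a1, a⟩, b, e⟩, c⟩
          exact ⟨⟨b, c, this⟩, e, a⟩
      rw [h1] at hB
      rw [Finset.prod_const]
      have h2 : ((1 : ℝ) + 1) ^ (P.filter (· ∣ d)).card =
          Real.exp ((P.filter (· ∣ d)).card * Real.log 2) := by
        rw [Real.exp_nat_mul, Real.exp_log (by norm_num)]
        norm_num
      rw [h2]
      apply Real.exp_le_exp.2
      apply mul_le_mul_of_nonneg_right _ (by linarith)
      have : (k : ℝ) ≤ 100 * (P.filter (· ∣ d)).card := by exact_mod_cast hB.le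
      linarith)
  refine h.trans ?_
  rw [mul_div_assoc, ← Real.exp_sub, rr_pow]
  have h5 : Real.exp (2 * C + 1) * N * Real.exp (-(k * (Real.log 2 / 4000))) =
      N * Real.exp ((2 * C + 1) + -(k * (Real.log 2 / 4000))) := by
    rw [Real.exp_add (2 * C + 1)]; ring
  rw [h5]
  apply mul_le_mul_of_nonneg_left _ (Nat.cast_nonneg _)
  apply Real.exp_le_exp.2
  have hk0 : (0 : ℝ) ≤ k := Nat.cast_nonneg _
  have h8 : 0 ≤ (k : ℝ) * Real.log 2 := mul_nonneg hk0 (by linarith)
  nlinarith

theorem ev3 (n : ℕ) (hn : 1 ≤ n) : ∃ C : ℝ, 0 < C ∧ ∀ k N : ℕ,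
    (((Finset.Ioc 0 N).filter (fun d : ℕ =>
      Xk k < sm (zk k) (d : ℤ) ^ (8 * n))).card : ℝ) ≤ C * N * rr ^ k := by
  obtain ⟨C, hC⟩ := Pool.Agent.Erdos456.Mert.mertens_log
  have hC0 : 0 ≤ C := (abs_nonneg _).trans (hC 1 le_rfl)
  have hl2 := Real.log_two_gt_d9
  have hl2' := Real.log_two_lt_d9
  have hn0 : (0 : ℝ) < n := by exact_mod_cast hn
  refine ⟨Real.exp (2 + 2 * C / Real.log 2) * (16 * n), by positivity, fun k N => ?_⟩
  set P := (Finset.Icc 1 (zk k)).filter Nat.Prime with hP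
  have hPp : ∀ p ∈ P, p.Prime := fun p hp => (Finset.mem_filter.1 hp).2
  set L := Real.log (zk k) with hL
  have hL2 : Real.log 2 ≤ L := by
    apply Real.log_le_log (by norm_num)
    exact_mod_cast two_le_zk k
  have hL0 : 0 < L := by linarith
  have hlogp : ∀ p ∈ P, 0 ≤ Real.log p ∧ Real.log p ≤ L := by
    intro p hp
    rw [hP, Finset.mem_filter, Finset.mem_Icc] at hp
    constructor
    · apply Real.log_nonneg
      exact_mod_cast hp.1.1
    · apply Real.log_le_log
      · exact_mod_cast hp.1.1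
      · exact_mod_cast hp.1.2
  have hw0 : ∀ p ∈ P, 0 ≤ Real.exp (Real.log p / L) - 1 := by
    intro p hp
    have h1 : 0 ≤ Real.log p / L := div_nonneg (hlogp p hp).1 hL0.le
    have := Real.add_one_le_exp (Real.log p / L)
    linarith
  have hw1 : ∀ p ∈ P, Real.exp (Real.log p / L) - 1 ≤ 2 * (Real.log p / L) := by
    intro p hp
    have h1 : 0 ≤ Real.log p / L := div_nonneg (hlogp p hp).1 hL0.le
    have h2 : Real.log p / L ≤ 1 := by
      rw [div_le_one hL0]
      exact (hlogp p hp).2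
    have h3 := Real.abs_exp_sub_one_le (x := Real.log p / L) (by rw [abs_of_nonneg h1]; exact h2)
    rw [abs_of_nonneg h1] at h3
    exact (le_abs_self _).trans h3
  have hsum : ∑ p ∈ P, (Real.exp (Real.log p / L) - 1) / p ≤ 2 + 2 * C / Real.log 2 := by
    calc ∑ p ∈ P, (Real.exp (Real.log p / L) - 1) / p
        ≤ ∑ p ∈ P, 2 / L * (Real.log p / p) := by
          apply Finset.sum_le_sum
          intro p hp
          have hp0 : (0 : ℝ) < p := by exact_mod_cast (hPp p hp).pos
          have h1 := hw1 p hp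
          calc (Real.exp (Real.log p / L) - 1) / p ≤ (2 * (Real.log p / L)) / p :=
                div_le_div_of_nonneg_right h1 hp0.le
            _ = 2 / L * (Real.log p / p) := by ring
      _ = 2 / L * ∑ p ∈ P, Real.log p / p := by rw [Finset.mul_sum]
      _ ≤ 2 / L * (L + C) := by
          apply mul_le_mul_of_nonneg_left _ (by positivity)
          have := hC (zk k) (by have := two_le_zk k; omega)
          rw [abs_le] at this
          linarith [this.2]
      _ = 2 + 2 * C / L := by field_simp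
      _ ≤ 2 + 2 * C / Real.log 2 := by
          have : 2 * C / L ≤ 2 * C / Real.log 2 :=
            div_le_div_of_nonneg_left (by linarith) (by linarith) hL2
          linarith
  set Y : ℝ := 2 ^ (k / 200) / (8 * n) with hY
  have hY0 : 0 < Y := by positivity
  have hXL : Real.log (Xk k) / L = 2 ^ (k / 200) := by
    rw [hL, log_Xk, log_zk]
    have h1 : (2 : ℝ) ^ k = 2 ^ (k - k / 200) * 2 ^ (k / 200) := by
      rw [← pow_add]
      congr 1
      have := Nat.div_le_self k 200
      omega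
    rw [h1]
    have : Real.log 2 ≠ 0 := by linarith
    field_simp
  have h := rankin_count P hPp (fun p => Real.exp (Real.log p / L) - 1) hw0 N
    (Real.exp Y) (Real.exp_pos _) (2 + 2 * C / Real.log 2) hsum
    (fun d : ℕ => Xk k < sm (zk k) (d : ℤ) ^ (8 * n))
    (by
      intro d hd hB
      have h1 : sm (zk k) (d : ℤ) = ∏ p ∈ P.filter (· ∣ d), p := by
        rw [sm, Int.natAbs_natCast]
        apply Finset.prod_congr _ (fun _ _ => rfl)
        ext p
        rw [Finset.mem_filter, Finset.mem_filter, hP, Finset.mem_filter, Nat.mem_primeFactors,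
          Finset.mem_Icc]
        have : d ≠ 0 := by
          rw [Finset.mem_Ioc] at hd
          omega
        constructor
        · rintro ⟨⟨a, b, _⟩, c⟩
          exact ⟨⟨⟨a.one_lt.le, c⟩, a⟩, b⟩
        · rintro ⟨⟨⟨a1, a⟩, b⟩, c⟩
          exact ⟨⟨b, c, this⟩, a⟩
      rw [h1] at hB
      have h2 : ∏ p ∈ P.filter (· ∣ d), (1 + (Real.exp (Real.log p / L) - 1)) =
          Real.exp (Real.log ((∏ p ∈ P.filter (· ∣ d), p : ℕ) : ℝ) / L) := by
        push_cast
        rw [Real.log_prod, Finset.sum_div, Real.exp_sum]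
        · apply Finset.prod_congr rfl
          intro p _
          ring
        · intro p hp
          have := (hPp p (Finset.mem_filter.1 hp).1).ne_zero
          exact_mod_cast this
      rw [h2]
      apply Real.exp_le_exp.2
      have h3 : Real.log (Xk k) ≤ (8 * n : ℕ) *
          Real.log ((∏ p ∈ P.filter (· ∣ d), p : ℕ) : ℝ) := by
        rw [← Real.log_pow]
        apply Real.log_le_log
        · have : 0 < Xk k := by rw [Xk]; positivity
          exact_mod_cast this
        · exact_mod_cast hB.le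
      rw [hY, ← hXL, div_div, div_le_div_iff₀ (by positivity) hL0]
      push_cast at h3
      push_cast
      nlinarith)
  refine h.trans ?_
  have h6 : Real.exp (-Y) ≤ 16 * n * rr ^ k := by
    have h7 : Y * Real.exp (-Y) ≤ 1 := by
      have := Real.add_one_le_exp Y
      have h8 : Y * Real.exp (-Y) ≤ Real.exp Y * Real.exp (-Y) :=
        mul_le_mul_of_nonneg_right (by linarith) (Real.exp_pos _).le
      rw [← Real.exp_add, add_neg_cancel, Real.exp_zero] at h8
      exact h8
    have h8 : Real.exp (-Y) ≤ 8 * n / 2 ^ (k / 200) := by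
      have : Real.exp (-Y) ≤ 1 / Y := by
        rw [le_div_iff₀ hY0, mul_comm]
        exact h7
      refine this.trans (le_of_eq ?_)
      rw [hY, one_div_div]
    have h9 : (1 : ℝ) / 2 ^ (k / 200) ≤ 2 * rr ^ k := by
      have h10 : (2 : ℝ) ^ (k / 200) = Real.exp (((k / 200 : ℕ) : ℝ) * Real.log 2) := by
        rw [Real.exp_nat_mul, Real.exp_log (by norm_num)]
      rw [h10, one_div, ← Real.exp_neg, rr_pow]
      have h11 : 2 * Real.exp (-(k * (Real.log 2 / 4000))) =
          Real.exp (Real.log 2 + -(k * (Real.log 2 / 4000))) := by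
        rw [Real.exp_add, Real.exp_log (by norm_num)]
      rw [h11]
      apply Real.exp_le_exp.2
      have h12 := le_div_add k
      have h13 : ((k : ℝ) / 200 - 1) * Real.log 2 ≤ ((k / 200 : ℕ) : ℝ) * Real.log 2 :=
        mul_le_mul_of_nonneg_right h12 (by linarith)
      have hk0 : (0 : ℝ) ≤ k := Nat.cast_nonneg _
      have h14 : 0 ≤ (k : ℝ) * Real.log 2 := mul_nonneg hk0 (by linarith)
      nlinarith
    calc Real.exp (-Y) ≤ 8 * n / 2 ^ (k / 200) := h8
      _ = 8 * n * (1 / 2 ^ (k / 200)) := by ring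
      _ ≤ 8 * n * (2 * rr ^ k) := by
        apply mul_le_mul_of_nonneg_left h9
        positivity
      _ = 16 * n * rr ^ k := by ring
  calc (N : ℝ) * Real.exp (2 + 2 * C / Real.log 2) / Real.exp Y
      = N * Real.exp (2 + 2 * C / Real.log 2) * Real.exp (-Y) := by
        rw [Real.exp_neg, div_eq_mul_inv]
    _ ≤ N * Real.exp (2 + 2 * C / Real.log 2) * (16 * n * rr ^ k) := by
        apply mul_le_mul_of_nonneg_left h6
        positivity
    _ = _ := by ring

end Pool.Agent.K7.H5.TY
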