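import Pool.Agent.K7.H5.TY.B

/-!
Job TY of project PT (helper23): almost all `D` are typical.
-/

set_option autoImplicit false

namespace Pool.Agent.K7.H5.TY

open Finset Pool.Agent.K7.H23.PT

theorem rootN (n N : ℕ) (hN : 2 ^ n ≤ N) (hn : 1 ≤ n) : ∃ z : ℕ, 2 ≤ z ∧ z ^ n ≤ N ∧
    ∀ p : ℕ, p ^ n ≤ N → p ≤ z := by
  classical
  have hb : ∀ p : ℕ, p ^ n ≤ N → p ≤ N := by
    intro p hp
    exact (Nat.le_self_pow (by omega) p).trans hp
  refine ⟨Nat.findGreatest (fun z => z ^ n ≤ N) N, ?_, ?_, ?_⟩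
  · exact Nat.le_findGreatest (P := fun z => z ^ n ≤ N) (hb 2 hN) hN
  · exact Nat.findGreatest_spec (P := fun z => z ^ n ≤ N) (hb 2 hN) hN
  · intro p hp
    exact Nat.le_findGreatest (P := fun z => z ^ n ≤ N) (hb p hp) hp

open scoped Classical in
/-- almost all `d` have a large prime factor modulo which `Δ` is not a square -/
theorem evBig (Δ : ℤ) (C : ℝ) (hC : ∀ z : ℕ, 2 ≤ z →
    |(∑ p ∈ (Finset.range (z + 1)).filter (fun p => p.Prime ∧ ¬ IsSquare ((Δ : ℤ) : ZMod p)),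
      (1 : ℝ) / p) - Real.log (Real.log z) / 2| ≤ C) (n : ℕ) (hn : 1 ≤ n) (S : ℝ) (hS : 0 < S)
    (hSn : S ≤ Real.log n / 2 - 2 * C) (N : ℕ) (hN : 2 ^ n ≤ N) :
    (((Finset.Ioc 0 N).filter (fun d : ℕ => ¬ Big Δ n N (d : ℤ))).card : ℝ) ≤ 3 * N / S := by
  obtain ⟨z, hz2, hzN, hz⟩ := rootN n N hN hn
  set Q : ℕ → Finset ℕ := fun x => (Finset.range (x + 1)).filter
    (fun p => p.Prime ∧ ¬ IsSquare ((Δ : ℤ) : ZMod p)) with hQ
  set P := (Q N).filter (fun p => N < p ^ n) with hP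
  have hN2 : 2 ≤ N := by
    calc 2 = 2 ^ 1 := by norm_num
      _ ≤ 2 ^ n := Nat.pow_le_pow_right (by norm_num) hn
      _ ≤ N := hN
  have hPS : S ≤ ∑ p ∈ P, (1 : ℝ) / p := by
    have h1 := hC N hN2
    have h2 := hC z hz2
    rw [abs_le] at h1 h2
    have h3 : ∑ p ∈ Q N, (1 : ℝ) / p = ∑ p ∈ P, (1 : ℝ) / p +
        ∑ p ∈ (Q N).filter (fun p => ¬ N < p ^ n), (1 : ℝ) / p :=
      (Finset.sum_filter_add_sum_filter_not _ _ _).symm
    have h4 : ∑ p ∈ (Q N).filter (fun p => ¬ N < p ^ n), (1 : ℝ) / p ≤ ∑ p ∈ Q z, (1 : ℝ) / p := by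
      apply Finset.sum_le_sum_of_subset_of_nonneg
      · intro p hp
        rw [Finset.mem_filter] at hp
        have h5 := hz p (not_lt.1 hp.2)
        have h6 := hp.1
        rw [hQ] at h6 ⊢
        simp only [Finset.mem_filter, Finset.mem_range] at h6 ⊢
        exact ⟨by omega, h6.2⟩
      · intro p _ _
        positivity
    have h7 : Real.log (Real.log z) ≤ Real.log (Real.log N) - Real.log n := by
      have hn0 : (0 : ℝ) < n := by exact_mod_cast hn
      have hzl : 0 < Real.log z := Real.log_pos (by exact_mod_cast hz2)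
      have hNl : 0 < Real.log N := Real.log_pos (by exact_mod_cast hN2)
      have h8 : (n : ℝ) * Real.log z ≤ Real.log N := by
        rw [← Real.log_pow]
        apply Real.log_le_log (by positivity)
        exact_mod_cast hzN
      have h9 : Real.log (n * Real.log z) ≤ Real.log (Real.log N) :=
        Real.log_le_log (by positivity) h8
      rw [Real.log_mul hn0.ne' hzl.ne'] at h9
      linarith
    have h1' : Real.log (Real.log N) / 2 - C ≤ ∑ p ∈ Q N, (1 : ℝ) / p := by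
      have := h1.1
      rw [hQ]
      linarith
    have h2' : ∑ p ∈ Q z, (1 : ℝ) / p ≤ Real.log (Real.log z) / 2 + C := by
      have := h2.2
      rw [hQ]
      linarith
    linarith
  have h := tk_count P (fun p hp => by
      rw [hP, Finset.mem_filter] at hp
      exact (Finset.mem_filter.1 hp.1).2.1) N
    (fun p hp => by
      rw [hP, Finset.mem_filter] at hp
      have := (Finset.mem_filter.1 hp.1).1
      rw [Finset.mem_range] at this
      omega) S hPS hS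
  refine le_trans ?_ h
  have h5 : (Finset.Ioc 0 N).filter (fun d : ℕ => ¬ Big Δ n N (d : ℤ)) ⊆
      (Finset.Ioc 0 N).filter (fun d => ∀ p ∈ P, ¬ p ∣ d) := by
    intro d hd
    rw [Finset.mem_filter] at hd ⊢
    refine ⟨hd.1, fun p hp hpd => hd.2 ?_⟩
    rw [hP, Finset.mem_filter] at hp
    have h6 := (Finset.mem_filter.1 hp.1).2
    exact ⟨p, h6.1, by exact_mod_cast hpd, hp.2, h6.2⟩
  exact_mod_cast Finset.card_le_card h5

/-- the definitions depend on `|D|` only -/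
theorem typK_natAbs (Δ : ℤ) (k n N : ℕ) (D : ℤ) :
    TypK Δ k n N ((D.natAbs : ℕ) : ℤ) ↔ TypK Δ k n N D := by
  simp only [TypK, ws, wm, sm, Int.natAbs_natCast]

theorem big_natAbs (Δ : ℤ) (n N : ℕ) (D : ℤ) :
    Big Δ n N ((D.natAbs : ℕ) : ℤ) ↔ Big Δ n N D := by
  simp only [Big]
  constructor
  · rintro ⟨p, h1, h2, h3⟩
    refine ⟨p, h1, ?_, h3⟩
    rwa [Int.dvd_natAbs] at h2
  · rintro ⟨p, h1, h2, h3⟩
    refine ⟨p, h1, ?_, h3⟩
    rwa [Int.dvd_natAbs]

theorem lt_Xk (k : ℕ) : k < Xk k := by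
  rw [Xk]
  exact (Nat.lt_two_pow_self).trans Nat.lt_two_pow_self

theorem main (hMQ : StMQ) : StTY := by
  classical
  intro Δ hΔ ε hε
  obtain ⟨C, hC⟩ := hMQ Δ hΔ
  have hC0 : 0 ≤ C := (abs_nonneg _).trans (hC 2 le_rfl).1
  -- choice of `n`
  set S : ℝ := 12 / ε with hS
  have hS0 : 0 < S := by positivity
  obtain ⟨n, hn⟩ := exists_nat_ge (Real.exp (2 * S + 4 * C))
  have hn1 : 1 ≤ n := by
    have h1 : (1 : ℝ) ≤ n := by
      refine le_trans ?_ hn
      rw [← Real.exp_zero]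
      exact Real.exp_le_exp.2 (by positivity)
    exact_mod_cast h1
  have hSn : S ≤ Real.log n / 2 - 2 * C := by
    have h1 : 2 * S + 4 * C ≤ Real.log n := by
      rw [← Real.log_exp (2 * S + 4 * C)]
      exact Real.log_le_log (Real.exp_pos _) hn
    linarith
  obtain ⟨C2, hC20, hC2⟩ := ev2
  obtain ⟨C3, hC30, hC3⟩ := ev3 1 le_rfl
  obtain ⟨C4, hC40, hC4⟩ := ev3 n hn1
  set C5 : ℝ := Real.exp (C / 10 + 1) + C2 + C3 + C4 with hC5
  have hC50 : 0 < C5 := by positivity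
  have hr1 : 0 < 1 - rr := by linarith [rr_lt_one]
  -- one scale
  have hk : ∀ k N : ℕ, 1 ≤ k → Xk k ≤ N →
      (((Finset.Ioc 0 N).filter (fun d : ℕ => ¬ TypK Δ k n N (d : ℤ))).card : ℝ) ≤
        C5 * N * rr ^ k := by
    intro k N hk hXN
    have h1 := ev1 Δ C (fun z hz => by
      have := ((abs_le.1 (hC z hz).1)).2
      linarith) k N
    have h2 := hC2 k N hk
    have h3 := hC3 k N
    have h4 := hC4 k N
    have hsub : (Finset.Ioc 0 N).filter (fun d : ℕ => ¬ TypK Δ k n N (d : ℤ)) ⊆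
        (((Finset.Ioc 0 N).filter (fun d : ℕ => 38 * k < 100 * ws Δ (zk k) (d : ℤ))) ∪
        ((Finset.Ioc 0 N).filter (fun d : ℕ => k < 100 * wm (zk k) (Xk (k + 1)) (d : ℤ)))) ∪
        (((Finset.Ioc 0 N).filter (fun d : ℕ => Xk k < sm (zk k) (d : ℤ) ^ (8 * 1))) ∪
        ((Finset.Ioc 0 N).filter (fun d : ℕ => Xk k < sm (zk k) (d : ℤ) ^ (8 * n)))) := by
      intro d hd
      rw [Finset.mem_filter] at hd
      rw [Finset.mem_union, Finset.mem_union, Finset.mem_union, Finset.mem_filter,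
        Finset.mem_filter, Finset.mem_filter, Finset.mem_filter]
      by_contra hcon
      push Not at hcon
      obtain ⟨⟨a1, a2⟩, a3, a4⟩ := hcon
      apply hd.2
      refine ⟨a1 hd.1, a2 hd.1, ?_, (a4 hd.1).trans hXN⟩
      have := a3 hd.1
      rwa [mul_one] at this
    have hcard := (Finset.card_le_card hsub).trans ((Finset.card_union_le _ _).trans
      (add_le_add (Finset.card_union_le _ _) (Finset.card_union_le _ _)))
    have hcard' : (((Finset.Ioc 0 N).filter (fun d : ℕ => ¬ TypK Δ k n N (d : ℤ))).card : ℝ) ≤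
        ((((Finset.Ioc 0 N).filter (fun d : ℕ => 38 * k < 100 * ws Δ (zk k) (d : ℤ))).card : ℝ) +
        ((Finset.Ioc 0 N).filter (fun d : ℕ => k < 100 * wm (zk k) (Xk (k + 1)) (d : ℤ))).card) +
        ((((Finset.Ioc 0 N).filter (fun d : ℕ => Xk k < sm (zk k) (d : ℤ) ^ (8 * 1))).card : ℝ) +
        ((Finset.Ioc 0 N).filter (fun d : ℕ => Xk k < sm (zk k) (d : ℤ) ^ (8 * n))).card) := by
      exact_mod_cast hcard
    refine hcard'.trans ?_
    rw [hC5]
    nlinarith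
  -- choice of `k₀`
  obtain ⟨k₁, hk₁⟩ := exists_pow_lt_of_lt_one (show 0 < ε * (1 - rr) / (4 * C5) by positivity)
    rr_lt_one
  set k₀ := k₁ + 1 with hk₀
  have hk0r : rr ^ k₀ ≤ ε * (1 - rr) / (4 * C5) := by
    refine le_trans ?_ hk₁.le
    rw [hk₀, pow_succ]
    have := pow_pos rr_pos k₁
    nlinarith [rr_lt_one]
  refine ⟨n, k₀, 2 ^ n, hn1, fun N hN => ?_⟩
  have hBig := evBig Δ C (fun z hz => (hC z hz).2) n hn1 S hS0 hSn N hN
  -- all scales
  have hall : (((Finset.Ioc 0 N).filter (fun d : ℕ =>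
      ¬ ∀ k, k₀ ≤ k → Xk k ≤ N → TypK Δ k n N (d : ℤ))).card : ℝ) ≤ ε / 4 * N := by
    have hsub : (Finset.Ioc 0 N).filter (fun d : ℕ =>
        ¬ ∀ k, k₀ ≤ k → Xk k ≤ N → TypK Δ k n N (d : ℤ)) ⊆
        ((Finset.Ico k₀ (N + 1)).filter (fun k => Xk k ≤ N)).biUnion
          (fun k => (Finset.Ioc 0 N).filter (fun d : ℕ => ¬ TypK Δ k n N (d : ℤ))) := by
      intro d hd
      rw [Finset.mem_filter] at hd
      obtain ⟨hd1, hd2⟩ := hd
      push Not at hd2
      obtain ⟨k, h1, h2, h3⟩ := hd2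
      rw [Finset.mem_biUnion]
      refine ⟨k, ?_, ?_⟩
      · rw [Finset.mem_filter, Finset.mem_Ico]
        have := lt_Xk k
        exact ⟨⟨h1, by omega⟩, h2⟩
      · rw [Finset.mem_filter]
        exact ⟨hd1, h3⟩
    have h1 := (Finset.card_le_card hsub).trans Finset.card_biUnion_le
    have h2 : (((Finset.Ioc 0 N).filter (fun d : ℕ =>
        ¬ ∀ k, k₀ ≤ k → Xk k ≤ N → TypK Δ k n N (d : ℤ))).card : ℝ) ≤
        ∑ k ∈ (Finset.Ico k₀ (N + 1)).filter (fun k => Xk k ≤ N),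
          (((Finset.Ioc 0 N).filter (fun d : ℕ => ¬ TypK Δ k n N (d : ℤ))).card : ℝ) := by
      exact_mod_cast h1
    calc (((Finset.Ioc 0 N).filter (fun d : ℕ =>
        ¬ ∀ k, k₀ ≤ k → Xk k ≤ N → TypK Δ k n N (d : ℤ))).card : ℝ)
        ≤ ∑ k ∈ (Finset.Ico k₀ (N + 1)).filter (fun k => Xk k ≤ N),
          (((Finset.Ioc 0 N).filter (fun d : ℕ => ¬ TypK Δ k n N (d : ℤ))).card : ℝ) := h2
      _ ≤ ∑ k ∈ (Finset.Ico k₀ (N + 1)).filter (fun k => Xk k ≤ N), C5 * N * rr ^ k := by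
          apply Finset.sum_le_sum
          intro k hk'
          rw [Finset.mem_filter, Finset.mem_Ico] at hk'
          exact hk k N (by omega) hk'.2
      _ ≤ ∑ k ∈ Finset.Ico k₀ (N + 1), C5 * N * rr ^ k := by
          apply Finset.sum_le_sum_of_subset_of_nonneg (Finset.filter_subset _ _)
          intro k _ _
          have := pow_pos rr_pos k
          positivity
      _ = C5 * N * ∑ k ∈ Finset.Ico k₀ (N + 1), rr ^ k := by rw [Finset.mul_sum]
      _ ≤ C5 * N * (rr ^ k₀ / (1 - rr)) := by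
          apply mul_le_mul_of_nonneg_left _ (by positivity)
          exact geom_sum_Ico_le_of_lt_one rr_pos.le rr_lt_one
      _ ≤ C5 * N * ((ε * (1 - rr) / (4 * C5)) / (1 - rr)) := by
          apply mul_le_mul_of_nonneg_left _ (by positivity)
          exact div_le_div_of_nonneg_right hk0r hr1.le
      _ = ε / 4 * N := by
          field_simp
  have h3 := ncard_int_le N (fun D : ℤ =>
      ¬ ((∀ k, k₀ ≤ k → Xk k ≤ N → TypK Δ k n N D) ∧ Big Δ n N D))
    (fun d : ℕ => ¬ ((∀ k, k₀ ≤ k → Xk k ≤ N → TypK Δ k n N (d : ℤ)) ∧ Big Δ n N (d : ℤ)))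
    (by
      intro D hD
      simpa only [typK_natAbs, big_natAbs] using hD)
  refine h3.trans ?_
  have h4 : (Finset.Ioc 0 N).filter (fun d : ℕ =>
      ¬ ((∀ k, k₀ ≤ k → Xk k ≤ N → TypK Δ k n N (d : ℤ)) ∧ Big Δ n N (d : ℤ))) ⊆
      (Finset.Ioc 0 N).filter (fun d : ℕ =>
        ¬ ∀ k, k₀ ≤ k → Xk k ≤ N → TypK Δ k n N (d : ℤ)) ∪
      (Finset.Ioc 0 N).filter (fun d : ℕ => ¬ Big Δ n N (d : ℤ)) := by
    intro d hd
    rw [Finset.mem_union, Finset.mem_filter, Finset.mem_filter]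
    rw [Finset.mem_filter, not_and_or] at hd
    rcases hd with ⟨h1, h2 | h2⟩
    · left; exact ⟨h1, h2⟩
    · right; exact ⟨h1, h2⟩
  have h5 : (((Finset.Ioc 0 N).filter (fun d : ℕ =>
      ¬ ((∀ k, k₀ ≤ k → Xk k ≤ N → TypK Δ k n N (d : ℤ)) ∧ Big Δ n N (d : ℤ)))).card : ℝ) ≤
      ((Finset.Ioc 0 N).filter (fun d : ℕ =>
        ¬ ∀ k, k₀ ≤ k → Xk k ≤ N → TypK Δ k n N (d : ℤ))).card +
      ((Finset.Ioc 0 N).filter (fun d : ℕ => ¬ Big Δ n N (d : ℤ))).card := by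
    exact_mod_cast (Finset.card_le_card h4).trans (Finset.card_union_le _ _)
  have h6 : 3 * (N : ℝ) / S = ε / 4 * N := by
    rw [hS]
    field_simp
    ring
  rw [h6] at hBig
  linarith

end Pool.Agent.K7.H5.TY
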